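import Pool.Agent.H37.CNH.Stmts

/-!
# Row UPB of the board `cnh`
-/

set_option autoImplicit false

namespace Pool.CND

theorem upb_thm (hWLD : S_WLD) (_hUMW : S_UMW) (hSYB : S_SYB) (hINB : S_INB) (hCON : S_CON) :
    S_UPB := by
  intro p k G _ _ _ A d m hp hchar hAb hAp hm hG c hc
  have : Fact p.Prime := ⟨hp⟩
  let iF : Fintype G := Fintype.ofFinite G
  obtain ⟨L, fL, aL, ρ, t, hcov, P, -, hP⟩ := hc
  obtain ⟨W, I, hW, hI, -, ⟨n, hn⟩, m1, hm1, hcI⟩ := hWLD p k L G P ρ hp hchar hcov.inj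
  obtain ⟨A', d', hA'W, hdd, hAb', hcW⟩ := hSYB p G A W d m hp hAb hAp hm hG ⟨n, hn⟩
  rcases hCON k L G P ρ W I c hcov.inj hW hI hP with h0 | ⟨l, hl, hc⟩
  · subst h0
    exact ⟨0, by simp⟩
  obtain ⟨z1, hz1⟩ := hINB p k L G P ρ W W A' d' l hp hchar hcov.inj hW le_rfl hA'W ⟨n, hn⟩ hAb'
    hcW hl
  have hWpos : 0 < Nat.card W := Nat.card_pos
  have hU : (m1 : ℚ) * c = U (fun g => P.b (ρ g)) W l := by
    have hW0 : (Nat.card W : ℚ) ≠ 0 := by exact_mod_cast hWpos.ne'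
    apply mul_left_cancel₀ hW0
    rw [← hc, hcI]
    push_cast
    ring
  -- `m1` divides `m`
  obtain ⟨a, ha⟩ := hAp
  have hdvd : m1 ∣ m := by
    have h1 : m1 ∣ Nat.card G :=
      (Dvd.intro _ hcI.symm).trans I.card_subgroup_dvd_card
    rw [hG, ha, ← pow_add] at h1
    exact (Nat.Coprime.pow_right _ ((Nat.Prime.coprime_iff_not_dvd hp).2 hm1).symm).dvd_of_dvd_mul_left
      h1
  obtain ⟨m2, hm2⟩ := hdvd
  refine ⟨m2 * (p ^ (d - d') * z1), ?_⟩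
  have key : ((p ^ d * m : ℕ) : ℚ) * c = (m2 : ℚ) * ((p : ℚ) ^ d *
      U (fun g => P.b (ρ g)) W l) := by
    rw [← hU, hm2]
    push_cast
    ring
  rw [key]
  push_cast
  rw [← hz1]
  nth_rewrite 1 [show d = (d - d') + d' by omega]
  rw [pow_add]
  ring

end Pool.CND
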